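import Pool.Agent.W2helper18.RX.Stm
import Pool.Agent.Helper601.Mertens

/-!
# RX, piece M: the prime factors with `p ^ 2 > L`
-/

set_option autoImplicit false

namespace Pool.Agent.W2helper51.RX

open Finset
open Pool.Agent.W2helper18.RX (P_M)

theorem sum_bound (C0 : ℝ) (hC0 : ∀ N : ℕ, 3 ≤ N →
    |∑ p ∈ (Finset.Icc 1 N).filter Nat.Prime, (1 : ℝ) / p - Real.log (Real.log N)| ≤ C0)
    (L : ℕ) (S : Finset ℕ) (hS : ∀ p ∈ S, p.Prime ∧ L < p ^ 2) (hcard : #S ≤ L) :
    ∑ p ∈ S, 1 / (p : ℝ) ≤ 2 * C0 + Real.log 3 + 10 := by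
  have hC0' : 0 ≤ C0 := (abs_nonneg _).trans (hC0 3 le_rfl)
  have hl3 : 0 ≤ Real.log 3 := Real.log_nonneg (by norm_num)
  rcases Nat.lt_or_ge L 9 with h9 | h9
  · have h1 : ∑ p ∈ S, 1 / (p : ℝ) ≤ ∑ p ∈ S, (1 : ℝ) := by
      refine sum_le_sum fun p hp => ?_
      have hp1 : (1 : ℝ) ≤ p := by exact_mod_cast (hS p hp).1.one_lt.le
      rw [div_le_one (by linarith)]
      exact hp1
    rw [sum_const, nsmul_eq_mul, mul_one] at h1
    have h2 : (#S : ℝ) ≤ 9 := by exact_mod_cast hcard.trans (by omega)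
    linarith
  · have hs3 : 3 ≤ Nat.sqrt L := Nat.le_sqrt.2 (by omega)
    have hlt : L < (Nat.sqrt L + 1) * (Nat.sqrt L + 1) := Nat.lt_succ_sqrt L
    have hssL : Nat.sqrt L ≤ L := Nat.sqrt_le_self L
    have hss : Nat.sqrt L * Nat.sqrt L ≤ L := Nat.sqrt_le L
    generalize Nat.sqrt L = s at hs3 hlt hssL hss
    have hLs : L ≤ s ^ 3 := by nlinarith
    have hs3' : (3 : ℝ) ≤ s := by exact_mod_cast hs3
    have hlogs : 0 < Real.log s := Real.log_pos (by linarith)
    have hL0 : (0 : ℝ) < L := by exact_mod_cast (by omega : 0 < L)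
    have hL1 : (1 : ℝ) < L := by exact_mod_cast (by omega : 1 < L)
    have hlog1 : Real.log L ≤ 3 * Real.log s := by
      have h1 : (L : ℝ) ≤ (s : ℝ) ^ 3 := by exact_mod_cast hLs
      have h2 := Real.log_le_log hL0 h1
      rw [Real.log_pow] at h2
      exact_mod_cast h2
    have hlog2 : Real.log (Real.log L) ≤ Real.log 3 + Real.log (Real.log s) := by
      rw [← Real.log_mul (by norm_num) hlogs.ne']
      exact Real.log_le_log (Real.log_pos hL1) hlog1
    have hsub : (Icc 1 s).filter Nat.Prime ⊆ (Icc 1 L).filter Nat.Prime :=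
      filter_subset_filter _ (Icc_subset_Icc_right hssL)
    have hA := sum_sdiff (f := fun p : ℕ => (1 : ℝ) / p) hsub
    have h1 := (abs_le.1 (hC0 L (by omega))).2
    have h2 := (abs_le.1 (hC0 s hs3)).1
    have hS1 : ∑ p ∈ S.filter (fun p => p ≤ L), 1 / (p : ℝ) ≤
        ∑ p ∈ (Icc 1 L).filter Nat.Prime \ (Icc 1 s).filter Nat.Prime, 1 / (p : ℝ) := by
      refine sum_le_sum_of_subset_of_nonneg ?_ (fun p _ _ => by positivity)
      intro p hp
      rw [mem_filter] at hp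
      have hpS := hS p hp.1
      rw [mem_sdiff, mem_filter, mem_filter, mem_Icc, mem_Icc]
      refine ⟨⟨⟨hpS.1.one_lt.le, hp.2⟩, hpS.1⟩, ?_⟩
      rintro ⟨⟨_, hps⟩, _⟩
      have h3 : p ^ 2 ≤ s * s := by rw [sq]; exact Nat.mul_le_mul hps hps
      have := hpS.2
      omega
    have hS2 : ∑ p ∈ S.filter (fun p => ¬ p ≤ L), 1 / (p : ℝ) ≤ 1 := by
      have h3 : ∑ p ∈ S.filter (fun p => ¬ p ≤ L), 1 / (p : ℝ) ≤
          ∑ p ∈ S.filter (fun p => ¬ p ≤ L), 1 / (L : ℝ) := by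
        refine sum_le_sum fun p hp => ?_
        rw [mem_filter] at hp
        have h4 : (L : ℝ) ≤ p := by exact_mod_cast (by omega : L ≤ p)
        exact one_div_le_one_div_of_le hL0 h4
      rw [sum_const, nsmul_eq_mul] at h3
      have h5 : ((#(S.filter fun p => ¬ p ≤ L) : ℕ) : ℝ) ≤ L := by
        exact_mod_cast (card_filter_le _ _).trans hcard
      have h6 : ((#(S.filter fun p => ¬ p ≤ L) : ℕ) : ℝ) * (1 / L) ≤ L * (1 / L) :=
        mul_le_mul_of_nonneg_right h5 (by positivity)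
      have h7 : (L : ℝ) * (1 / L) = 1 := by field_simp
      linarith
    rw [← sum_filter_add_sum_filter_not S (fun p => p ≤ L)]
    linarith

theorem pm : P_M := by
  obtain ⟨C0, hC0⟩ := Pool.Agent.Helper601.Mertens.mertens_inv
  have hC0' : 0 ≤ C0 := (abs_nonneg _).trans (hC0 3 le_rfl)
  have hl3 : 0 ≤ Real.log 3 := Real.log_nonneg (by norm_num)
  refine ⟨Real.exp (2 * C0 + Real.log 3 + 10), Real.one_le_exp (by linarith), ?_⟩
  intro L S hS hcard
  have key := sum_bound C0 hC0 L S hS hcard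
  calc ∏ p ∈ S, (1 + 1 / (p : ℝ)) ≤ ∏ p ∈ S, Real.exp (1 / (p : ℝ)) :=
        prod_le_prod (fun p _ => by positivity) (fun p _ => by
          have := Real.add_one_le_exp (1 / (p : ℝ))
          linarith)
    _ = Real.exp (∑ p ∈ S, 1 / (p : ℝ)) := (Real.exp_sum _ _).symm
    _ ≤ _ := Real.exp_le_exp.2 key

end Pool.Agent.W2helper51.RX
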